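import Pool.Agent.N990.RT.Stm

set_option autoImplicit false

/-! # Project RT (helper990), leaf BAS (helper169) -/

namespace Pool.Agent.N169.RT

open MeasureTheory Pool.Agent.N988.EA Pool.Agent.N990.RT

theorem continuous_cs : Continuous cs := by
  refine (QuotientAddGroup.isQuotientMap_mk (N := AddSubgroup.zmultiples (2 * Real.pi))).continuous_iff.2 ?_
  exact Real.continuous_cos

theorem abs_cs_le (x : Ang) : |cs x| ≤ 1 := by
  induction x using QuotientAddGroup.induction_on with
  | H z => exact Real.abs_cos_le_one z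

theorem continuous_act (β : ℝ) (n : ℕ) : Continuous (Pool.Agent.N990.RT.act β n) := by
  unfold Pool.Agent.N990.RT.act
  refine continuous_const.mul (continuous_finsetSum _ (fun e _ => ?_))
  exact continuous_cs.comp ((continuous_apply _).sub (continuous_apply _))

theorem act_bd (β : ℝ) (n : ℕ) (θ : Pt 2 n → Ang) :
    |Pool.Agent.N990.RT.act β n θ| ≤ |β| * (Fintype.card (Edge 2 n) : ℝ) := by
  unfold Pool.Agent.N990.RT.act
  rw [abs_mul]
  refine mul_le_mul_of_nonneg_left ?_ (abs_nonneg _)
  refine (Finset.abs_sum_le_sum_abs _ _).trans ?_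
  refine (Finset.sum_le_sum (fun e _ => abs_cs_le _)).trans ?_
  simp

theorem continuous_elim (n : ℕ) : Continuous fun z : (Bool → Ang) × (Vert 2 n → Ang) =>
    (Sum.elim z.1 z.2 : Pt 2 n → Ang) := by
  refine continuous_pi (fun i => ?_)
  rcases i with t | v
  · exact (continuous_apply t).comp continuous_fst
  · exact (continuous_apply v).comp continuous_snd

theorem continuous_dens (β : ℝ) (n : ℕ) : Continuous fun z : (Bool → Ang) × (Vert 2 n → Ang) =>
    Real.exp (Pool.Agent.N990.RT.act β n (Sum.elim z.1 z.2)) :=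
  Real.continuous_exp.comp ((continuous_act β n).comp (continuous_elim n))

theorem dens_le (β : ℝ) (n : ℕ) (θ : Pt 2 n → Ang) :
    Real.exp (Pool.Agent.N990.RT.act β n θ) ≤ Real.exp (|β| * (Fintype.card (Edge 2 n) : ℝ)) :=
  Real.exp_le_exp.2 ((le_abs_self _).trans (act_bd β n θ))

theorem le_dens (β : ℝ) (n : ℕ) (θ : Pt 2 n → Ang) :
    Real.exp (-(|β| * (Fintype.card (Edge 2 n) : ℝ))) ≤ Real.exp (Pool.Agent.N990.RT.act β n θ) :=
  Real.exp_le_exp.2 ((neg_le_neg (act_bd β n θ)).trans (neg_abs_le _))

theorem cont_sec (β : ℝ) (n : ℕ) (τ : Bool → Ang) : Continuous fun σ : Vert 2 n → Ang =>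
    Real.exp (Pool.Agent.N990.RT.act β n (Sum.elim τ σ)) :=
  (continuous_dens β n).comp (continuous_const.prodMk continuous_id)

theorem integrable_dens (β : ℝ) (n : ℕ) (τ : Bool → Ang) : Integrable (fun σ : Vert 2 n → Ang =>
    Real.exp (Pool.Agent.N990.RT.act β n (Sum.elim τ σ))) (refm n) := by
  refine Integrable.mono' (integrable_const (Real.exp (|β| * (Fintype.card (Edge 2 n) : ℝ))))
    (cont_sec β n τ).aestronglyMeasurable ?_
  refine Filter.Eventually.of_forall (fun σ => ?_)
  rw [Real.norm_eq_abs, abs_of_pos (Real.exp_pos _)]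
  exact dens_le β n _

theorem Zf_pos (β : ℝ) (n : ℕ) (τ : Bool → Ang) : 0 < Zf β n τ := by
  unfold Zf
  have h : ∫ _ : Vert 2 n → Ang, Real.exp (-(|β| * (Fintype.card (Edge 2 n) : ℝ))) ∂(refm n) ≤
      ∫ σ, Real.exp (Pool.Agent.N990.RT.act β n (Sum.elim τ σ)) ∂(refm n) :=
    integral_mono (integrable_const _) (integrable_dens β n τ) (fun σ => le_dens β n _)
  rw [integral_const] at h
  have h2 : (refm n).real Set.univ = 1 := by simp [Measure.real]
  rw [h2, one_smul] at h
  exact (Real.exp_pos _).trans_le h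

theorem continuous_Zf (β : ℝ) (n : ℕ) : Continuous (Zf β n) := by
  unfold Zf
  refine continuous_of_dominated (bound := fun _ => Real.exp (|β| * (Fintype.card (Edge 2 n) : ℝ)))
    (fun τ => (cont_sec β n τ).aestronglyMeasurable) (fun τ => Filter.Eventually.of_forall (fun σ => ?_))
    (integrable_const _) (Filter.Eventually.of_forall (fun σ => ?_))
  · rw [Real.norm_eq_abs, abs_of_pos (Real.exp_pos _)]
    exact dens_le β n _
  · exact (continuous_dens β n).comp (continuous_id.prodMk continuous_const)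

theorem formula (β : ℝ) (n : ℕ) (τ : Bool → Ang) (F : (Vert 2 n → Ang) → ℝ) :
    ∫ σ, F σ ∂(gib β n τ) =
    (∫ σ, F σ * Real.exp (Pool.Agent.N990.RT.act β n (Sum.elim τ σ)) ∂(refm n)) / Zf β n τ := by
  unfold gib
  rw [integral_withDensity_eq_integral_toReal_smul]
  · rw [← integral_div]
    refine integral_congr_ae (Filter.Eventually.of_forall (fun σ => ?_))
    simp only
    rw [ENNReal.toReal_ofReal (div_nonneg (Real.exp_pos _).le (Zf_pos β n τ).le), smul_eq_mul]
    ring
  · exact ((cont_sec β n τ).measurable.div_const _).ennreal_ofReal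
  · exact Filter.Eventually.of_forall (fun σ => ENNReal.ofReal_lt_top)

theorem prob (β : ℝ) (n : ℕ) (τ : Bool → Ang) : IsProbabilityMeasure (gib β n τ) := by
  constructor
  unfold gib
  rw [withDensity_apply _ MeasurableSet.univ, Measure.restrict_univ,
    ← ofReal_integral_eq_lintegral_ofReal ((integrable_dens β n τ).div_const _)
      (Filter.Eventually.of_forall (fun σ => div_nonneg (Real.exp_pos _).le (Zf_pos β n τ).le)),
    integral_div]
  have : (∫ σ, Real.exp (Pool.Agent.N990.RT.act β n (Sum.elim τ σ)) ∂(refm n)) = Zf β n τ := rfl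
  rw [this, div_self (Zf_pos β n τ).ne', ENNReal.ofReal_one]

theorem meas (β : ℝ) (n : ℕ) (X : Type) [MeasurableSpace X] (g : X → Bool → Ang)
    (f : X × (Vert 2 n → Ang) → ℝ) (hg : Measurable g) (hf : Measurable f) :
    Measurable fun x => ∫ σ, f (x, σ) ∂(gib β n (g x)) := by
  have h1 : (fun x => ∫ σ, f (x, σ) ∂(gib β n (g x))) = fun x =>
      (∫ σ, f (x, σ) * Real.exp (Pool.Agent.N990.RT.act β n (Sum.elim (g x) σ)) ∂(refm n)) /
        Zf β n (g x) := by
    funext x
    exact formula β n (g x) (fun σ => f (x, σ))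
  rw [h1]
  have h2 : Measurable fun z : X × (Vert 2 n → Ang) => (Sum.elim (g z.1) z.2 : Pt 2 n → Ang) := by
    refine measurable_pi_lambda _ (fun i => ?_)
    rcases i with t | v
    · exact (measurable_pi_apply t).comp (hg.comp measurable_fst)
    · exact (measurable_pi_apply v).comp measurable_snd
  have h3 : Measurable fun z : X × (Vert 2 n → Ang) =>
      f z * Real.exp (Pool.Agent.N990.RT.act β n (Sum.elim (g z.1) z.2)) :=
    hf.mul (Real.measurable_exp.comp ((continuous_act β n).measurable.comp h2))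
  have h4 := (h3.stronglyMeasurable.integral_prod_right' (ν := refm n)).measurable
  exact h4.div ((continuous_Zf β n).measurable.comp hg)

theorem t_bas : S_BAS := by
  intro β n
  exact ⟨continuous_act β n, ⟨_, act_bd β n⟩, ⟨continuous_Zf β n, Zf_pos β n⟩, prob β n, formula β n,
    fun X _ g f hg hf => meas β n X g f hg hf⟩

end Pool.Agent.N169.RT
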